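import Pool.Agent.W845.DH.Stm

set_option autoImplicit false
open scoped Classical

namespace Pool.Agent.W536.DH

open Pool.Agent.W845.DH

noncomputable section

theorem mem_cls {V : Type} [Fintype V] (τ : Equiv.Perm V) (v w : V) :
    w ∈ cls τ v ↔ τ.SameCycle v w := by
  unfold cls
  rw [Finset.mem_filter]
  exact ⟨fun h => h.2, fun h => ⟨Finset.mem_univ _, h⟩⟩

theorem nc_eq {V : Type} [Fintype V] (τ : Equiv.Perm V) :
    nc τ = ncn τ + (Finset.univ.filter (fun v => τ v = v)).card := by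
  unfold nc ncn
  have h1 : (Finset.univ.filter (fun v => τ v = v)).card
      = ((Finset.univ.filter (fun v => τ v = v)).image (cls τ)).card := by
    symm
    apply Finset.card_image_of_injOn
    intro a ha b hb hab
    have ha' : τ a = a := (Finset.mem_filter.1 ha).2
    have h : b ∈ cls τ a := by
      have h' : cls τ a = cls τ b := hab
      rw [h', mem_cls]
    rw [mem_cls] at h
    exact h.eq_of_left ha'
  rw [h1, ← Finset.card_union_of_disjoint]
  · congr 1
    rw [← Finset.image_union]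
    congr 1
    ext v
    simp only [Finset.mem_univ, Finset.mem_union, Finset.mem_filter, true_and, true_iff]
    exact (em (τ v = v)).symm
  · rw [Finset.disjoint_left]
    intro s hs hs'
    obtain ⟨a, ha, rfl⟩ := Finset.mem_image.1 hs
    obtain ⟨b, hb, hb'⟩ := Finset.mem_image.1 hs'
    have hb1 : τ b = b := (Finset.mem_filter.1 hb).2
    have ha1 : τ a ≠ a := (Finset.mem_filter.1 ha).2
    have h : a ∈ cls τ b := by
      rw [hb', mem_cls]
    rw [mem_cls] at h
    have := h.eq_of_left hb1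
    subst this
    exact ha1 hb1

theorem nsc {V : Type} (τ : Equiv.Perm V) (u p : V) (hp : τ p = p) (hup : u ≠ p) :
    ¬ τ.SameCycle u p := fun h => hup (h.eq_of_right hp)

/-- Merging two cycles through two connectors. -/
theorem step {V : Type} [Fintype V] (hsw : S_SWM) (τ : Equiv.Perm V) (u1 u2 x y x' y' : V)
    (hu1 : τ u1 ≠ u1) (hu2 : τ u2 ≠ u2) (h12 : ¬ τ.SameCycle u1 u2)
    (hx : τ x = x) (hy : τ y = y) (hx' : τ x' = x') (hy' : τ y' = y')
    (hxy : x ≠ y) (hxx' : x ≠ x') (hxy' : x ≠ y') (hyx' : y ≠ x') (hyy' : y ≠ y')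
    (hx'y' : x' ≠ y') :
    ∃ σ : Equiv.Perm V, σ u1 = x ∧ σ x = y ∧ σ y = τ u2 ∧ σ u2 = x' ∧ σ x' = y' ∧ σ y' = τ u1 ∧
      (∀ v, v ≠ u1 → v ≠ x → v ≠ y → v ≠ u2 → v ≠ x' → v ≠ y' → σ v = τ v) ∧
      ncn σ + 1 = ncn τ := by
  have n12 : u1 ≠ u2 := by
    rintro rfl
    exact h12 (Equiv.Perm.SameCycle.refl _ _)
  have ne (u p : V) (hu : τ u ≠ u) (hp : τ p = p) : u ≠ p := by
    rintro rfl
    exact hu hp
  have a1 := ne u1 x hu1 hx
  have a2 := ne u1 y hu1 hy
  have a3 := ne u1 x' hu1 hx'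
  have a4 := ne u1 y' hu1 hy'
  have b1 := ne u2 x hu2 hx
  have b2 := ne u2 y hu2 hy
  have b3 := ne u2 x' hu2 hx'
  have b4 := ne u2 y' hu2 hy'
  obtain ⟨τ1, hτ1⟩ : ∃ τ1, τ1 = τ * Equiv.swap u1 u2 := ⟨_, rfl⟩
  obtain ⟨τ2, hτ2⟩ : ∃ τ2, τ2 = τ1 * Equiv.swap u1 y := ⟨_, rfl⟩
  obtain ⟨τ3, hτ3⟩ : ∃ τ3, τ3 = τ2 * Equiv.swap u1 x := ⟨_, rfl⟩
  obtain ⟨τ4, hτ4⟩ : ∃ τ4, τ4 = τ3 * Equiv.swap u2 y' := ⟨_, rfl⟩
  obtain ⟨τ5, hτ5⟩ : ∃ τ5, τ5 = τ4 * Equiv.swap u2 x' := ⟨_, rfl⟩
  have e1 (v : V) (h1 : v ≠ u1) (h2 : v ≠ u2) : τ1 v = τ v := by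
    rw [hτ1, Equiv.Perm.mul_apply, Equiv.swap_apply_of_ne_of_ne h1 h2]
  have e1a : τ1 u1 = τ u2 := by rw [hτ1, Equiv.Perm.mul_apply, Equiv.swap_apply_left]
  have e1b : τ1 u2 = τ u1 := by rw [hτ1, Equiv.Perm.mul_apply, Equiv.swap_apply_right]
  have e2 (v : V) (h1 : v ≠ u1) (h2 : v ≠ y) : τ2 v = τ1 v := by
    rw [hτ2, Equiv.Perm.mul_apply, Equiv.swap_apply_of_ne_of_ne h1 h2]
  have e2a : τ2 u1 = τ1 y := by rw [hτ2, Equiv.Perm.mul_apply, Equiv.swap_apply_left]
  have e2b : τ2 y = τ1 u1 := by rw [hτ2, Equiv.Perm.mul_apply, Equiv.swap_apply_right]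
  have e3 (v : V) (h1 : v ≠ u1) (h2 : v ≠ x) : τ3 v = τ2 v := by
    rw [hτ3, Equiv.Perm.mul_apply, Equiv.swap_apply_of_ne_of_ne h1 h2]
  have e3a : τ3 u1 = τ2 x := by rw [hτ3, Equiv.Perm.mul_apply, Equiv.swap_apply_left]
  have e3b : τ3 x = τ2 u1 := by rw [hτ3, Equiv.Perm.mul_apply, Equiv.swap_apply_right]
  have e4 (v : V) (h1 : v ≠ u2) (h2 : v ≠ y') : τ4 v = τ3 v := by
    rw [hτ4, Equiv.Perm.mul_apply, Equiv.swap_apply_of_ne_of_ne h1 h2]
  have e4a : τ4 u2 = τ3 y' := by rw [hτ4, Equiv.Perm.mul_apply, Equiv.swap_apply_left]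
  have e4b : τ4 y' = τ3 u2 := by rw [hτ4, Equiv.Perm.mul_apply, Equiv.swap_apply_right]
  have e5 (v : V) (h1 : v ≠ u2) (h2 : v ≠ x') : τ5 v = τ4 v := by
    rw [hτ5, Equiv.Perm.mul_apply, Equiv.swap_apply_of_ne_of_ne h1 h2]
  have e5a : τ5 u2 = τ4 x' := by rw [hτ5, Equiv.Perm.mul_apply, Equiv.swap_apply_left]
  have e5b : τ5 x' = τ4 u2 := by rw [hτ5, Equiv.Perm.mul_apply, Equiv.swap_apply_right]
  -- values
  have f1y : τ1 y = y := by rw [e1 y a2.symm b2.symm, hy]
  have f2x : τ2 x = x := by rw [e2 x a1.symm hxy, e1 x a1.symm b1.symm, hx]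
  have f3y' : τ3 y' = y' := by
    rw [e3 y' a4.symm hxy'.symm, e2 y' a4.symm hyy'.symm, e1 y' a4.symm b4.symm, hy']
  have f4x' : τ4 x' = x' := by
    rw [e4 x' b3.symm hx'y', e3 x' a3.symm hxx'.symm, e2 x' a3.symm hyx'.symm,
      e1 x' a3.symm b3.symm, hx']
  have g0 := (hsw V τ u1 u2 h12).2
  have g1 := (hsw V τ1 u1 y (nsc τ1 u1 y f1y a2)).2
  have g2 := (hsw V τ2 u1 x (nsc τ2 u1 x f2x a1)).2
  have g3 := (hsw V τ3 u2 y' (nsc τ3 u2 y' f3y' b4)).2
  have g4 := (hsw V τ4 u2 x' (nsc τ4 u2 x' f4x' b3)).2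
  rw [← hτ1] at g0
  rw [← hτ2] at g1
  rw [← hτ3] at g2
  rw [← hτ4] at g3
  rw [← hτ5] at g4
  have v1 : τ5 u1 = x := by rw [e5 u1 n12 a3, e4 u1 n12 a4, e3a, f2x]
  have v2 : τ5 x = y := by rw [e5 x b1.symm hxx', e4 x b1.symm hxy', e3b, e2a, f1y]
  have v3 : τ5 y = τ u2 := by
    rw [e5 y b2.symm hyx', e4 y b2.symm hyy', e3 y a2.symm hxy.symm, e2b, e1a]
  have v4 : τ5 u2 = x' := by rw [e5a, f4x']
  have v5 : τ5 x' = y' := by rw [e5b, e4a, f3y']
  have v6 : τ5 y' = τ u1 := by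
    rw [e5 y' b4.symm hx'y'.symm, e4b, e3 u2 n12.symm b1, e2 u2 n12.symm b2, e1b]
  have v7 : ∀ v, v ≠ u1 → v ≠ x → v ≠ y → v ≠ u2 → v ≠ x' → v ≠ y' → τ5 v = τ v := by
    intro v h1 h2 h3 h4 h5 h6
    rw [e5 v h4 h5, e4 v h4 h6, e3 v h1 h2, e2 v h1 h3, e1 v h1 h4]
  refine ⟨τ5, v1, v2, v3, v4, v5, v6, v7, ?_⟩
  have c1 := nc_eq τ
  have c2 := nc_eq τ5
  have hfix : Finset.univ.filter (fun v => τ v = v)
      = insert x (insert y (insert x' (insert y' (Finset.univ.filter (fun v => τ5 v = v))))) := by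
    ext v
    simp only [Finset.mem_insert, Finset.mem_filter, Finset.mem_univ, true_and]
    constructor
    · intro hv
      by_cases h2 : v = x
      · exact Or.inl h2
      by_cases h3 : v = y
      · exact Or.inr (Or.inl h3)
      by_cases h5 : v = x'
      · exact Or.inr (Or.inr (Or.inl h5))
      by_cases h6 : v = y'
      · exact Or.inr (Or.inr (Or.inr (Or.inl h6)))
      refine Or.inr (Or.inr (Or.inr (Or.inr ?_)))
      rw [v7 v (ne u1 v hu1 hv).symm h2 h3 (ne u2 v hu2 hv).symm h5 h6, hv]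
    · rintro (rfl | rfl | rfl | rfl | hv)
      · exact hx
      · exact hy
      · exact hx'
      · exact hy'
      · have k1 : v ≠ u1 := by
          rintro rfl
          exact a1 (hv.symm.trans v1)
        have k2 : v ≠ x := by
          rintro rfl
          exact hxy (hv.symm.trans v2)
        have k3 : v ≠ y := by
          rintro rfl
          exact b2 (τ.injective (by rw [← v3, hv, hy]))
        have k4 : v ≠ u2 := by
          rintro rfl
          exact b3 (hv.symm.trans v4)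
        have k5 : v ≠ x' := by
          rintro rfl
          exact hx'y' (hv.symm.trans v5)
        have k6 : v ≠ y' := by
          rintro rfl
          exact a4 (τ.injective (by rw [← v6, hv, hy']))
        rw [← v7 v k1 k2 k3 k4 k5 k6, hv]
  have m6 : y' ∉ Finset.univ.filter (fun v => τ5 v = v) := by
    intro h
    have hv := (Finset.mem_filter.1 h).2
    exact a4 (τ.injective (by rw [← v6, hv, hy']))
  have m5 : x' ∉ insert y' (Finset.univ.filter (fun v => τ5 v = v)) := by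
    intro h
    rcases Finset.mem_insert.1 h with h | h
    · exact hx'y' h
    · have hv := (Finset.mem_filter.1 h).2
      exact hx'y' (hv.symm.trans v5)
  have m4 : y ∉ insert x' (insert y' (Finset.univ.filter (fun v => τ5 v = v))) := by
    intro h
    rcases Finset.mem_insert.1 h with h | h
    · exact hyx' h
    rcases Finset.mem_insert.1 h with h | h
    · exact hyy' h
    · have hv := (Finset.mem_filter.1 h).2
      exact b2 (τ.injective (by rw [← v3, hv, hy]))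
  have m3 : x ∉ insert y (insert x' (insert y' (Finset.univ.filter (fun v => τ5 v = v)))) := by
    intro h
    rcases Finset.mem_insert.1 h with h | h
    · exact hxy h
    rcases Finset.mem_insert.1 h with h | h
    · exact hxx' h
    rcases Finset.mem_insert.1 h with h | h
    · exact hxy' h
    · have hv := (Finset.mem_filter.1 h).2
      exact hxy (hv.symm.trans v2)
  rw [hfix, Finset.card_insert_of_notMem m3, Finset.card_insert_of_notMem m4,
    Finset.card_insert_of_notMem m5, Finset.card_insert_of_notMem m6] at c1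
  omega

theorem conn : S_SWM → S_CONN := by
  intro hsw V _ D r
  induction r with
  | zero =>
    intro τ M hD hr _ _ _
    have hno : ∀ v, τ v = v := by
      intro v
      by_contra hv
      have hmem : cls τ v ∈ (Finset.univ.filter (fun v => τ v ≠ v)).image (cls τ) :=
        Finset.mem_image_of_mem _ (Finset.mem_filter.2 ⟨Finset.mem_univ _, hv⟩)
      have : 0 < ncn τ := Finset.card_pos.2 ⟨_, hmem⟩
      omega
    refine ⟨τ, hD, fun x y hx => absurd (hno x) hx, fun v hv => hv, ?_⟩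
    have : (Finset.univ.filter (fun v => τ v ≠ v ∧ τ v ≠ τ v)) = ∅ := by
      apply Finset.filter_eq_empty_iff.2
      intro v _ h
      exact h.2 rfl
    rw [this]
    simp
  | succ r ih =>
    intro τ M hD hr hM hfix hcon
    by_cases hone : ∀ x y, τ x ≠ x → τ y ≠ y → τ.SameCycle x y
    · refine ⟨τ, hD, hone, fun v hv => hv, ?_⟩
      have : (Finset.univ.filter (fun v => τ v ≠ v ∧ τ v ≠ τ v)) = ∅ := by
        apply Finset.filter_eq_empty_iff.2
        intro v _ h
        exact h.2 rfl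
      rw [this]
      simp
    push Not at hone
    obtain ⟨u1, u2, hu1, hu2, h12⟩ := hone
    have hc1 := hcon u1 (τ u2)
    obtain ⟨e, he⟩ : (M.filter (fun e => D u1 e.1 ∧ D e.2 (τ u2))).Nonempty := by
      rw [← Finset.card_pos]; omega
    have hc2 := hcon u2 (τ u1)
    obtain ⟨e', he'⟩ : ((M.filter (fun e => D u2 e.1 ∧ D e.2 (τ u1))).erase e).Nonempty := by
      rw [← Finset.card_pos]
      have := Finset.pred_card_le_card_erase (s := M.filter (fun e => D u2 e.1 ∧ D e.2 (τ u1)))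
        (a := e)
      omega
    obtain ⟨hee, he'⟩ := Finset.mem_erase.1 he'
    obtain ⟨heM, hDe1, hDe2⟩ := Finset.mem_filter.1 he
    obtain ⟨heM', hDe1', hDe2'⟩ := Finset.mem_filter.1 he'
    obtain ⟨fe1, fe2, fe3⟩ := hfix e heM
    obtain ⟨fe1', fe2', fe3'⟩ := hfix e' heM'
    obtain ⟨d1, d2, d3, d4⟩ := hM.2 e heM e' heM' hee.symm
    have de := hM.1 e heM
    have de' := hM.1 e' heM'
    obtain ⟨σ, s1, s2, s3, s4, s5, s6, s7, s8⟩ := step hsw τ u1 u2 e.1 e.2 e'.1 e'.2 hu1 hu2 h12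
      fe1 fe2 fe1' fe2' de d1 d2 d3 d4 de'
    have hσD : ∀ v, σ v = v ∨ D v (σ v) := by
      intro v
      by_cases h1 : v = u1
      · right; rw [h1, s1]; exact hDe1
      by_cases h2 : v = e.1
      · right; rw [h2, s2]; exact fe3
      by_cases h3 : v = e.2
      · right; rw [h3, s3]; exact hDe2
      by_cases h4 : v = u2
      · right; rw [h4, s4]; exact hDe1'
      by_cases h5 : v = e'.1
      · right; rw [h5, s5]; exact fe3'
      by_cases h6 : v = e'.2
      · right; rw [h6, s6]; exact hDe2'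
      rw [s7 v h1 h2 h3 h4 h5 h6]
      exact hD v
    have hMs : ∀ f ∈ M \ {e, e'}, f ∈ M ∧ f ≠ e ∧ f ≠ e' := by
      intro f hf
      rw [Finset.mem_sdiff, Finset.mem_insert, Finset.mem_singleton, not_or] at hf
      exact ⟨hf.1, hf.2.1, hf.2.2⟩
    have hM' : VDs (M \ {e, e'}) :=
      ⟨fun f hf => hM.1 f (hMs f hf).1,
        fun f hf g hg hfg => hM.2 f (hMs f hf).1 g (hMs g hg).1 hfg⟩
    have hfixpt : ∀ p, τ p = p → p ≠ e.1 → p ≠ e.2 → p ≠ e'.1 → p ≠ e'.2 → σ p = p := by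
      intro p hp h1 h2 h3 h4
      rw [s7 p ?_ h1 h2 ?_ h3 h4, hp]
      · rintro rfl; exact hu1 hp
      · rintro rfl; exact hu2 hp
    have hfix' : ∀ f ∈ M \ {e, e'}, σ f.1 = f.1 ∧ σ f.2 = f.2 ∧ D f.1 f.2 := by
      intro f hf
      obtain ⟨hf1, hf2, hf3⟩ := hMs f hf
      obtain ⟨k1, k2, k3⟩ := hfix f hf1
      obtain ⟨q1, q2, q3, q4⟩ := hM.2 f hf1 e heM hf2
      obtain ⟨p1, p2, p3, p4⟩ := hM.2 f hf1 e' heM' hf3
      exact ⟨hfixpt _ k1 q1 q2 p1 p2, hfixpt _ k2 q3 q4 p3 p4, k3⟩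
    have hcon' : ∀ u w, 2 * r ≤ ((M \ {e, e'}).filter (fun e => D u e.1 ∧ D e.2 w)).card := by
      intro u w
      have h := hcon u w
      have hsub : (M.filter (fun e => D u e.1 ∧ D e.2 w)) \ {e, e'}
          ⊆ (M \ {e, e'}).filter (fun e => D u e.1 ∧ D e.2 w) := by
        intro f hf
        rw [Finset.mem_sdiff, Finset.mem_filter] at hf
        rw [Finset.mem_filter, Finset.mem_sdiff]
        exact ⟨⟨hf.1.1, hf.2⟩, hf.1.2⟩
      have h1 := Finset.card_le_card hsub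
      have h2 := Finset.le_card_sdiff ({e, e'} : Finset (V × V))
        (M.filter (fun e => D u e.1 ∧ D e.2 w))
      have h3 : ({e, e'} : Finset (V × V)).card ≤ 2 := Finset.card_le_two
      omega
    obtain ⟨τ', t1, t2, t3, t4⟩ := ih σ (M \ {e, e'}) hσD (by omega) hM' hfix' hcon'
    have hne : ∀ v, τ v ≠ v → σ v ≠ v := by
      intro v hv
      have n1 : v ≠ e.1 := by rintro rfl; exact hv fe1
      have n2 : v ≠ e.2 := by rintro rfl; exact hv fe2
      have n3 : v ≠ e'.1 := by rintro rfl; exact hv fe1'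
      have n4 : v ≠ e'.2 := by rintro rfl; exact hv fe2'
      by_cases h1 : v = u1
      · rw [h1, s1, ← h1]; exact n1.symm
      by_cases h4 : v = u2
      · rw [h4, s4, ← h4]; exact n3.symm
      rw [s7 v h1 n1 n2 h4 n3 n4]
      exact hv
    refine ⟨τ', t1, t2, fun v hv => t3 v (hne v hv), ?_⟩
    have hsub : (Finset.univ.filter (fun v => τ v ≠ v ∧ τ' v ≠ τ v))
        ⊆ {u1, u2} ∪ (Finset.univ.filter (fun v => σ v ≠ v ∧ τ' v ≠ σ v)) := by
      intro v hv
      obtain ⟨_, hv1, hv2⟩ := Finset.mem_filter.1 hv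
      rw [Finset.mem_union, Finset.mem_insert, Finset.mem_singleton, Finset.mem_filter]
      by_cases h1 : v = u1
      · exact Or.inl (Or.inl h1)
      by_cases h4 : v = u2
      · exact Or.inl (Or.inr h4)
      right
      have n1 : v ≠ e.1 := by rintro rfl; exact hv1 fe1
      have n2 : v ≠ e.2 := by rintro rfl; exact hv1 fe2
      have n3 : v ≠ e'.1 := by rintro rfl; exact hv1 fe1'
      have n4 : v ≠ e'.2 := by rintro rfl; exact hv1 fe2'
      refine ⟨Finset.mem_univ _, hne v hv1, ?_⟩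
      rw [s7 v h1 n1 n2 h4 n3 n4]
      exact hv2
    have h1 := Finset.card_le_card hsub
    have h2 := Finset.card_union_le ({u1, u2} : Finset V)
      (Finset.univ.filter (fun v => σ v ≠ v ∧ τ' v ≠ σ v))
    have h3 : ({u1, u2} : Finset V).card ≤ 2 := Finset.card_le_two
    omega

end

end Pool.Agent.W536.DH
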